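import Mathlib
import Pool.Agent.H905R2.AutH

set_option autoImplicit false

open Pool.Agent.H905R2.Aut

namespace Pool.Agent.Results.MP_027985_al.AdmissibleClasses

universe u w

/-- The union of a family of classes of groups. -/
def union {ι : Type w} (K : ι → GroupClass.{u}) : GroupClass.{u} where
  mem G _ := ∃ i, (K i).mem G
  iso G H _ _ e := by
    rintro ⟨i, hi⟩
    exact ⟨i, (K i).iso G H e hi⟩

/-- There is a largest admissible class `largest`: it is admissible and a class is admissible if
and only if it is closed (under subgroups, images and groups of automorphisms) and contained in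
`largest`. A group `G` lies in `largest` if and only if it lies in some admissible class. The union
of any family of admissible classes is admissible. -/
theorem result :
    largest.{u}.Admissible ∧
    (∀ K : GroupClass.{u}, K.Admissible ↔
      K.Closed ∧ ∀ (G : Type u) [Group G], K.mem G → largest.mem G) ∧
    (∀ (G : Type u) [Group G], largest.mem G ↔ ∃ K : GroupClass.{u}, K.Admissible ∧ K.mem G) ∧
    (∀ (ι : Type w) (K : ι → GroupClass.{u}), (∀ i, (K i).Admissible) → (union K).Admissible) := by
  have key : ∀ K : GroupClass.{u}, K.Closed →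
      (K.Admissible ↔ ∀ (G : Type u) [Group G], K.mem G → largest.mem G) :=
    fun K hK => (main hK).out 0 7
  refine ⟨largest_admissible, ?_, ?_, ?_⟩
  · exact fun K => ⟨fun h => ⟨h.1, (key K h.1).1 h⟩, fun h => (key K h.1).2 h.2⟩
  · exact fun G _ => ⟨fun h => ⟨largest, largest_admissible, h⟩,
      fun ⟨K, hK, hG⟩ => (key K hK.1).1 hK G hG⟩
  · intro ι K hK
    have hcl : (union K).Closed :=
      { sub := fun G _ H => fun ⟨i, hi⟩ => ⟨i, (hK i).1.sub G H hi⟩
        quot := fun G Q _ _ f hf => fun ⟨i, hi⟩ => ⟨i, (hK i).1.quot G Q f hf hi⟩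
        aut := fun G _ H => fun ⟨i, hi⟩ => ⟨i, (hK i).1.aut G H hi⟩ }
    exact (key _ hcl).2 (fun G _ ⟨i, hi⟩ => (key (K i) (hK i).1).1 (hK i) G hi)

end Pool.Agent.Results.MP_027985_al.AdmissibleClasses
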